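import Pool.Agent.X308.K.Main

/-!
# Zero-cycles on a K3 surface and commuting correspondences on its products with curves

`𝒱` is a class of smooth projective geometrically irreducible varieties over the field `k` closed
under products (for the problem: all smooth projective varieties over the field of algebraic
numbers), `C` the Chow groups with rational coefficients (in the form of their formal properties,
`IsChowProj`), `H` a Weil cohomology theory (`IsWeilProj`). `KnownFacts H` records three known facts
over an algebraically closed field: homologically trivial divisors on `T × T`, for a curve `T`, are
sums of pull-backs (with rational coefficients); homologically trivial zero-cycles come from curves;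
zero-cycles on `X × Y` are sums of products `x × y`.

Theorem. Let `X` be a surface with `b_1 = b_3 = 0`, for example a K3 surface. These are equivalent:
(1) `CH^2(X)_ℚ = ℚ`;
(2) for all curves `T` the actions on `CH_0(X × T)_ℚ` of any two homologically trivial
self-correspondences of `X × T` (of degree zero) commute;
(3) for all curves `T` the composition of any two such correspondences acts as zero on
`CH_0(X × T)_ℚ`;
(4) for all curves `T` the square of any such correspondence acts as zero on `CH_0(X × T)_ℚ`;
(5) there is a noncommutative polynomial `f`, with a monomial of degree two which has a nonzero
coefficient, such that for all curves `T` the identity `f = 0` holds for the actions on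
`CH_0(X × T)_ℚ` of these correspondences.

So for a K3 surface `X` over the field of algebraic numbers the assertion of Q1 is equivalent to each
of the assertions (2)-(5). Over the complex numbers they are false, by the theorem of Mumford.

Proof. (1) ⇒ (3): then `CH_0(X × T) = o × CH_0(T)`, and homologically trivial correspondences act on
the zero-cycles of degree zero in this group through homologically trivial divisors on `T × T`.
(5) ⇒ (1): a zero-cycle `z` of degree zero on `X` is the image of a zero-cycle `v` of degree zero on
a curve `T` under a homologically trivial correspondence `Γ` (since `b_3 = 0`), and `v` is the image
of a point `t` under `T × v`. Replacing `Γ` by `Γ - T × Γ_* t` we may assume `Γ_* t = 0`. The two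
correspondences define homologically trivial self-correspondences `A`, `B` of `X × T` such that, for
`p = o × t`, all monomials in `A`, `B` vanish on `p` except `1`, `A`, and `BA`, and the projection
to `X` maps `A p` to zero and `BA p` to `z`.
-/

set_option autoImplicit false

universe u v w

namespace Pool.Agent.Results.MP_9207e0_ag.CommutingOnProducts

open Pool.Agent.H914 Pool.Agent.W492.BB Pool.Agent.TH133 Pool.Agent.X308.K

/-- The zero-cycles of degree zero on a surface `X` with `b_1 = b_3 = 0` (with rational
coefficients) are zero if and only if, for all curves `T`, the actions of the homologically trivial
self-correspondences of `X × T` on `CH_0(X × T)` commute, if and only if they satisfy some common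
polynomial identity in which a monomial of degree two occurs. -/
theorem result {k : Type u} [Field k] {𝒱 : VarClass k} (C : TheoryData.{u, v, 0} 𝒱 ℚ)
    [IsChowProj C] {K : Type w} [Field K] (H : WeilTheoryData.{u, v, w} C K) [IsWeilProj H]
    (hK : KnownFacts H) (X : 𝒱.Obj) (hX : IsRegularSurface H X) :
    List.TFAE [ZeroCyclesTrivial C X, ActionsCommute H X, CompositionsVanish H X,
      SquaresVanish H X, ∃ (f : List ℕ →₀ ℚ) (i j : ℕ), f [i, j] ≠ 0 ∧ SatisfyIdentity H X f] :=
  surface_iff hK hX

end Pool.Agent.Results.MP_9207e0_ag.CommutingOnProducts
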