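import Pool.Agent.X312.CH.Dom

/-!
# Zero-cycles on K3 surfaces dominated by `Y × X ^ m`, and cycles on `Y × X ^ n`

Let `S` be a K3 surface over the field of algebraic numbers which is dominated by `Y × X ^ m` for
smooth projective varieties `X` and `Y`: there are correspondences `Γ` from `S` to `Y × X ^ m` and
`Δ` from `Y × X ^ m` to `S` such that `Δ_* Γ_*` is the identity on the zero-cycles of degree zero
on `S` (for example the transpose of the graph and the graph, divided by the degree, of a dominant
rational map `Y × X ^ m ⇢ S` of surfaces, such as `E' × E ⇢ Km(E' × E)`, the Fermat quartic as a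
quotient of a product of two curves, and all K3 surfaces dominated by products of curves). Nothing
is assumed on `Y`. On `X` we assume that the numerically trivial self-correspondences of its
powers are nilpotent (by Kimura this holds if the Chow motive of `X` is finite-dimensional) and
that homological and numerical equivalence agree on its powers; both are known for products of
curves and for abelian varieties in characteristic zero. Let `ρ(Z)` be the rank of the cycles of
all codimensions on `Z` modulo numerical equivalence, and `b` the sum of the Betti numbers of `X`.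
**Then** `CH^2(S)_ℚ = ℚ`, **or for all** `n ≥ 1`

`dim {kernel of the Abel-Jacobi map on Y × X ^ n} ≥ (1 - 4 (m + 3) b ^ (m + 5) log (n + 1) / n)
ρ(X ^ n)`

(all codimensions together; the left hand side may be infinite). In particular let `S` be the
Kummer surface of `E' × E`: one zero-cycle of degree zero and infinite order on `S` forces almost
`ρ(E ^ n)` independent cycles in the kernels of the Abel-Jacobi maps of the abelian varieties `E'
× E ^ n` for all `n`, and the conjecture for `S` follows if for one `n` these kernels are smaller.

The vanishing `H^3(S) = 0` enters through the hypothesis that the Abel-Jacobi invariants of the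
zero-cycles of degree zero on `S` vanish.

The proof. For `Z` a power of `X` let `N(Z)` be the space of the cycles in question on `Y × Z`;
the correspondences between powers of `X` act on these spaces. Modulo numerical equivalence the
self-correspondences of `P = X ^ m` form a finite-dimensional algebra, and the numerically trivial
ones are nilpotent, so that idempotents can be lifted. If `N(P) ≠ 0`, one takes an idempotent
correspondence `g` on `P` of minimal rank with `g N(P) ≠ 0` and an element `z ≠ 0` of `g N(P)`.
The correspondences `x` with `x z = 0` have a nilpotent compression `g x g`, so the trace of `g x`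
vanishes, and so `dim N(Z)` is at least the rank of the trace form `(u, v) ↦ tr (g v u)`; for `Z =
X ^ n` this rank is compared with `ρ(X ^ n)` by the log-convexity of the sequence of the ranks of
the intersection forms and by the symmetric group.
-/

set_option autoImplicit false

open CategoryTheory AlgebraicGeometry

universe u v

namespace Pool.Agent.Results.MP_9207e0_ag.DominatedK3Gap

open Pool.Agent.H914 VarClass Obj WeilCohomology
open Pool.Agent.W492.BB (TheoryData)
open Pool.Agent.X312.CH (CycleTheory AbelJacobi HasIndep)
open Pool.Agent.Y133.Half (pw cycRank)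

variable {k : Type u} [Field k] {𝒱 : VarClass k} {ops : CycleOps 𝒱}
  {W : WeilCohomology.{u, v} ops} {C : TheoryData.{u, 0, 0} 𝒱 ℚ}

/-- The sum of the Betti numbers of `X`. -/
noncomputable def totalBetti (W : WeilCohomology.{u, v} ops) (X : 𝒱.Obj) : ℕ :=
  Module.finrank W.K (W.H X)

/-- The zero-cycle `a` on `S` has degree zero. -/
def IsDegreeZero (𝓣 : CycleTheory W C) {S : 𝒱.Obj} (a : C.A S) : Prop :=
  C.Deg S.dim a ∧ W.tr S (𝓣.cl S a) = 0

/-- The zero-cycles of degree zero on `S` are homologically trivial, and their Abel-Jacobi invariants
vanish. (For K3 surfaces this holds since `H^3(S) = 0`.) -/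
def NoAlbanese {𝓣 : CycleTheory W C} (Φ : AbelJacobi 𝓣) (S : 𝒱.Obj) : Prop :=
  ∀ a : C.A S, IsDegreeZero 𝓣 a → 𝓣.HomTriv a ∧ Φ.aj S a = 0

/-- Up to correspondences, the zero-cycles of degree zero on `S` come from `P`. -/
def IsDominatedBy (𝓣 : CycleTheory W C) (S P : 𝒱.Obj) : Prop :=
  ∃ (Γ : C.A (S.prod P)) (Δ : C.A (P.prod S)), ∀ a : C.A S, IsDegreeZero 𝓣 a →
    C.act Δ (C.act Γ a) = a

/-- **Zero-cycles on K3 surfaces dominated by** `Y × X ^ m`. Here `pw X m` is the product of `m + 1`
copies of `X`, and `HasIndep S x` says that there are at least `x` linearly independent elements of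
`S`. -/
theorem result (𝓣 : CycleTheory W C) (Φ : AbelJacobi 𝓣) (X Y : 𝒱.Obj)
    (hX : ∀ n : ℕ, 𝓣.NumNil (pw X n)) (hD : ∀ n : ℕ, HomEqNum W (pw X n)) (m : ℕ) (S : 𝒱.Obj)
    (hS : NoAlbanese Φ S) (hdom : IsDominatedBy 𝓣 S (Y.prod (pw X m))) :
    (∀ a : C.A S, IsDegreeZero 𝓣 a → a = 0) ∨
    ∀ n : ℕ, HasIndep {a : C.A (Y.prod (pw X n)) | 𝓣.HomTriv a ∧ Φ.aj _ a = 0}
      ((1 - 4 * (m + 4) * (totalBetti W X : ℝ) ^ (m + 6) * Real.log (n + 2) / (n + 1)) *
        cycRank ops (pw X n)) := by
  rcases Pool.Agent.X312.CH.aj_law' Φ X Y hX hD m with h | h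
  · left
    intro a ha
    obtain ⟨Γ, Δ, hΓ⟩ := hdom
    rw [← hΓ a ha, h _ (Pool.Agent.X312.CH.kernel_act Φ Γ (hS a ha))]
    exact Pool.Agent.X312.CH.act_zero' Δ
  · exact Or.inr h

end Pool.Agent.Results.MP_9207e0_ag.DominatedK3Gap
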