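import Pool.Agent.X310.RdC

/-!
# Zero-cycles on a K3 surface over real fields and CM fields

Let `X` be a K3 surface over `ℚ` (or any variety over `ℚ`). Number fields are subfields of a fixed algebraic closure of
`ℚ`. `T : DescentFunctor ℚ` models the `ℚ`-vector spaces `M(E) = CH²(X_E)₀ ⊗ ℚ` for the number fields `E`, with the action of
`Aut E`; they have Galois descent and transfer. `T.Zero E` says that `M(E) = 0`, which is Q1 for the surface `X_E` over
`E`. Since `CH²` of the surface over the algebraic closure is the union of the `CH²(X_E)`, Q1 for the latter says that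
`T.Zero E` holds for all number fields `E`.

* `M(E) = 0` for all number fields `E` if and only if `M(E) = 0` for those `E` which have a real embedding or are CM
  fields, and for which `Aut E` has an irreducible `ℚ`-representation in which only `1` fixes nonzero vectors (so that
  `Aut E` is trivial or a Frobenius complement).
* If `Aut E` has no such representation, then `M(E) = 0` if and only if `M` vanishes on all proper subfields of `E`.
* Let `D i` be subgroups of `Aut E` such that each irreducible `ℚ`-representation of `Aut E` has a nonzero vector fixed by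
  some `D i`. Then `M(E) = 0` if and only if `M(E^{D i}) = 0` for all `i`.
* Let `τ ∈ Aut E`, `τ² = 1`. Then `M(E) = 0` if and only if `M` vanishes on the fixed fields of `τ` and of `comms τ`; and
  if and only if `M(E^τ) = 0`, if `τ ∈ comms τ`, for example if `Aut E` is a nonabelian simple group.
-/

set_option autoImplicit false

namespace Pool.Agent.Results.MP_9207e0_ag.RealAndCMFields

open Pool.Agent.X307.MU Pool.Agent.X310.Rc Pool.Agent.X310.Rd Pool.Agent.X310.Rq NumberField

theorem result (T : DescentFunctor ℚ) :
    ((∀ E : Fld ℚ, FiniteDimensional ℚ E → T.Zero E) ↔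
      ∀ E : Fld ℚ, FiniteDimensional ℚ E → (HasRealPlace E ∨ IsCMField E) → HasFreeRep (AutOf E) →
        T.Zero E) ∧
    ∀ E : Fld ℚ, FiniteDimensional ℚ E →
      (¬ HasFreeRep (AutOf E) → (T.Zero E ↔ ∀ L, L < E → T.Zero L)) ∧
      (∀ (ι : Type) (D : ι → Subgroup (AutOf E)), IsRich D → (T.Zero E ↔ ∀ i, T.Zero (fixOf E (D i)))) ∧
      ∀ τ : AutOf E, τ * τ = 1 →
        (T.Zero E ↔ T.Zero (fixOf E (Subgroup.zpowers τ)) ∧ T.Zero (fixOf E (comms τ))) ∧
        (τ ∈ comms τ → (T.Zero E ↔ T.Zero (fixOf E (Subgroup.zpowers τ)))) := by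
  obtain ⟨c, hc⟩ := exists_conj (k := ℚ) (algebraMap ℚ ℂ) (fun x => by simp)
  exact ⟨⟨fun h E hE _ _ => h E hE, fun h E hE => zero_all_cm T hc h E hE⟩,
    fun E hE => ⟨zero_free T E, fun _ D hD => zero_iff T E D hD, zero_single T E⟩⟩

end Pool.Agent.Results.MP_9207e0_ag.RealAndCMFields
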